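import Pool.Agent.H40.Sob

open Pool.Agent.H40.Sob in
theorem Pool.Agent.Results.MP_2734af_lc.NoMultiple.result :
    ∀ X : Type, ∃ (I : Type) (W : Ultrafilter I), Enl W X ∧ Enl W ℕ+ ∧
      ∃ F G : Ultrafilter ℕ+, TDvd F G ∧ ∃ x ∈ Monad W F, ∀ y ∈ Monad W G, ¬ SDvd W x y :=
  mult
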